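import Mathlib

open Set Filter Cardinal Topology

namespace Pool.Agent.Results.MP_96acc4_lc.FactorBelow

/-- Rudin-Keisler order -/
def RK {X Y : Type} (u : Ultrafilter Y) (v : Ultrafilter X) : Prop := ∃ f : X → Y, u = v.map f

/-- the iterated product, on tuples; a set is large iff for `v 0`-many `x` its section at `x` is
large for the product of the remaining factors -/
def prod {K : Type} : (n : ℕ) → (Fin (n + 1) → Ultrafilter K) → Ultrafilter (Fin (n + 1) → K)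
  | 0, v => (v 0).map fun x _ => x
  | n + 1, v => (v 0).bind fun x => (prod n fun i => v i.succ).map (Fin.cons x)

/-- weak `P_{κ⁺}`-point -/
def WeakP (κ : Cardinal) (u : Ultrafilter ℕ) : Prop :=
  (∀ n : ℕ, u ≠ pure n) ∧ ∀ F : Set (Ultrafilter ℕ), (∀ p ∈ F, (∀ n : ℕ, p ≠ pure n) ∧ p ≠ u) →
    #F ≤ κ → u ∉ closure F

lemma two {K Y : Type} {u : Ultrafilter ℕ} (hu : WeakP #K u) (v : Ultrafilter K)
    (w : Ultrafilter Y) (f : K → Y → ℕ) (h : u = v.bind fun x => w.map (f x)) :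
    RK u v ∨ RK u w := by
  by_cases h1 : ∃ x, w.map (f x) = u
  · obtain ⟨x, hx⟩ := h1
    exact Or.inr ⟨f x, hx.symm⟩
  push Not at h1
  left
  rcases v.mem_or_compl_mem {x | ∃ n : ℕ, w.map (f x) = pure n} with hA | hA
  · have : ∀ x, ∃ n : ℕ, (∃ n : ℕ, w.map (f x) = pure n) → w.map (f x) = pure n := fun x => by
      by_cases h : ∃ n : ℕ, w.map (f x) = pure n
      · obtain ⟨n, hn⟩ := h
        exact ⟨n, fun _ => hn⟩
      · exact ⟨0, fun h' => (h h').elim⟩
    choose φ hφ using this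
    refine ⟨φ, (Ultrafilter.eq_of_le fun s hs => ?_).symm⟩
    rw [h] at hs
    have hs' : {x | s ∈ w.map (f x)} ∈ v := hs
    show φ ⁻¹' s ∈ v
    filter_upwards [hs', hA] with x h2 h3
    rw [hφ x h3] at h2
    exact h2
  · exfalso
    refine hu.2 ((fun x => w.map (f x)) '' {x | ∃ n : ℕ, w.map (f x) = pure n}ᶜ) ?_
      (mk_image_le.trans (mk_set_le _)) ?_
    · rintro _ ⟨x, hx, rfl⟩
      exact ⟨fun n hn => hx ⟨n, hn⟩, h1 x⟩
    · rw [ultrafilterBasis_is_basis.mem_closure_iff]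
      rintro _ ⟨s, rfl⟩ hs
      have hs' : s ∈ u := hs
      rw [h] at hs'
      have hs'' : {x | s ∈ w.map (f x)} ∈ v := hs'
      obtain ⟨x, h2, h3⟩ := Ultrafilter.nonempty_of_mem (inter_mem hs'' hA)
      exact ⟨_, h2, x, h3, rfl⟩

theorem result : ∀ (K : Type), ℵ₀ ≤ #K → #K < 𝔠 → ∀ u : Ultrafilter ℕ, WeakP #K u →
    ∀ (n : ℕ) (v : Fin (n + 1) → Ultrafilter K), RK u (prod n v) → ∃ k, RK u (v k) := by
  intro K _ _ u hu n
  induction n with
  | zero =>
    rintro v ⟨f, hf⟩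
    exact ⟨0, _, hf⟩
  | succ n ih =>
    rintro v ⟨f, hf⟩
    rcases two hu (v 0) (prod n fun i => v i.succ) (fun x y => f (Fin.cons x y)) hf with h | h
    · exact ⟨0, h⟩
    · obtain ⟨k, hk⟩ := ih _ h
      exact ⟨k.succ, hk⟩

end Pool.Agent.Results.MP_96acc4_lc.FactorBelow
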